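import Pool.Agent.Helper80.EC_F.Goals

/-!
# Packet M0E: expansion of `M_0` at `0`
-/

set_option autoImplicit false

open MeasureTheory Filter Topology Set

namespace EC237.PF.PkM0E

/-- The terms of `M_0`. -/
noncomputable def f0 (y : ℝ) (k : ℤ × ℤ) : ℝ :=
  if InCl 1 k then (k.2:ℝ) * y ^ 2 / Nn y k ^ 2 else 0

lemma summ (h1 : G_SUMA) (y : ℝ) (hy : 0 < y) : Summable (f0 y) := by
  refine Summable.of_norm_bounded (h1 y hy).1 fun k => ?_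
  unfold f0
  split_ifs with h
  · rw [Real.norm_eq_abs, abs_div, abs_mul, abs_of_nonneg (sq_nonneg y), abs_of_nonneg
      (sq_nonneg (Nn y k))]
  · rw [norm_zero]
    positivity

/-- The sum over `m` is a sum over `j`. -/
lemma inner (y : ℝ) (n : ℤ) : ∑' m : ℤ, f0 y (n, m) =
    ∑' j : ℤ, ((6 * j + 1 - 3 * n : ℤ) : ℝ) * y ^ 2 / Nn y (n, 6 * j + 1 - 3 * n) ^ 2 := by
  have hinj : Function.Injective (fun j : ℤ => 6 * j + 1 - 3 * n) := by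
    intro a b h
    have h' : 6 * a + 1 - 3 * n = 6 * b + 1 - 3 * n := h
    omega
  rw [← hinj.tsum_eq (f := fun m => f0 y (n, m))]
  · refine tsum_congr fun j => ?_
    have : InCl 1 (n, 6 * j + 1 - 3 * n) := by
      unfold InCl
      show (6 * j + 1 - 3 * n + 3 * n - 1) % 6 = 0
      omega
    simp only [f0, this, if_true]
  · intro m hm
    have hm' : f0 y (n, m) ≠ 0 := hm
    unfold f0 at hm'
    split_ifs at hm' with h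
    · have h' : (m + 3 * n - 1) % 6 = 0 := h
      refine ⟨(m + 3 * n - 1) / 6, ?_⟩
      show 6 * ((m + 3 * n - 1) / 6) + 1 - 3 * n = m
      omega
    · exact absurd rfl hm'

lemma inner0 (h4 : G_Z3) (y : ℝ) (hy : 0 < y) : ∑' m : ℤ, f0 y (0, m) =
    Real.sqrt 3 * Real.pi ^ 3 / 54 / y ^ 2 := by
  rw [inner, ← h4.tsum_eq, div_eq_mul_inv, ← tsum_mul_right]
  refine tsum_congr fun j => ?_
  have hj : (6 * (j:ℝ) + 1) ≠ 0 := by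
    have : (6 * j + 1 : ℤ) ≠ 0 := by omega
    exact_mod_cast this
  have hy' : y ≠ 0 := hy.ne'
  unfold Nn
  push_cast
  rw [sub_zero, zero_pow two_ne_zero, zero_add]
  field_simp

/-- The trigonometric factor. -/
lemma trig (n : ℤ) (k : ℕ) :
    Real.sin (2 * Real.pi * ((k:ℝ) + 1) * ((1 - 3 * (n:ℝ)) / 6)) =
      (-1) ^ ((k + 1) * n.natAbs) * Real.sin (Real.pi * ((k:ℝ) + 1) / 3) := by
  have h1 : 2 * Real.pi * ((k:ℝ) + 1) * ((1 - 3 * (n:ℝ)) / 6) =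
      Real.pi * ((k:ℝ) + 1) / 3 - ((((k:ℤ) + 1) * n : ℤ) : ℝ) * Real.pi := by
    push_cast
    ring
  rw [h1, Real.sin_sub_int_mul_pi]
  congr 1
  rcases Int.natAbs_eq n with h | h
  · conv_lhs => rw [h]
    rw [← zpow_natCast]
    push_cast
    rfl
  · conv_lhs => rw [h]
    rw [← zpow_natCast, mul_neg, zpow_neg, ← inv_zpow, inv_neg, inv_one]
    push_cast
    rfl

lemma innern (h3 : G_LIPM) (y : ℝ) (hy : 0 < y) (n : ℤ) (ν : ℕ) (hn : n.natAbs = ν + 1) :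
    2 * ∑' m : ℤ, f0 y (n, m) = ∑' k : ℕ, tM0 y (k, ν) := by
  have hna : |(n:ℝ)| = (ν:ℝ) + 1 := by
    have : ((n.natAbs : ℤ) : ℝ) = |(n:ℝ)| := by
      rw [Int.natCast_natAbs]
      push_cast
      rfl
    rw [← this, hn]
    push_cast
    ring
  have hn2 : (n:ℝ) ^ 2 = ((ν:ℝ) + 1) ^ 2 := by rw [← hna, sq_abs]
  have hν : (0:ℝ) < (ν:ℝ) + 1 := by positivity
  have hw : 0 < ((ν:ℝ) + 1) / (6 * y) := by positivity
  have hL := (h3 (((ν:ℝ) + 1) / (6 * y)) ((1 - 3 * (n:ℝ)) / 6) hw).1.tsum_eq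
  rw [inner]
  have hin : ∑' j : ℤ, ((6 * j + 1 - 3 * n : ℤ) : ℝ) * y ^ 2 /
        Nn y (n, 6 * j + 1 - 3 * n) ^ 2 =
      1 / (216 * y ^ 2) * ∑' j : ℤ, ((j:ℝ) + (1 - 3 * (n:ℝ)) / 6) /
        (((j:ℝ) + (1 - 3 * (n:ℝ)) / 6) ^ 2 + (((ν:ℝ) + 1) / (6 * y)) ^ 2) ^ 2 := by
    rw [← tsum_mul_left]
    refine tsum_congr fun j => ?_
    have hpos : 0 < ((j:ℝ) + (1 - 3 * (n:ℝ)) / 6) ^ 2 + (((ν:ℝ) + 1) / (6 * y)) ^ 2 := by
      positivity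
    have hN : Nn y (n, 6 * j + 1 - 3 * n) = 36 * y ^ 2 *
        (((j:ℝ) + (1 - 3 * (n:ℝ)) / 6) ^ 2 + (((ν:ℝ) + 1) / (6 * y)) ^ 2) := by
      unfold Nn
      push_cast
      show (n:ℝ) ^ 2 + _ = _
      rw [hn2]
      field_simp
      ring
    rw [hN]
    push_cast
    have h6 : (6 * (j:ℝ) + 1 - 3 * (n:ℝ)) = 6 * ((j:ℝ) + (1 - 3 * (n:ℝ)) / 6) := by ring
    rw [h6]
    field_simp
    ring
  rw [hin, hL, ← mul_assoc, ← mul_assoc, ← tsum_mul_left]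
  refine tsum_congr fun k => ?_
  rw [trig n k, hn]
  unfold tM0 sn
  have hexp : -(2 * Real.pi * (((ν:ℝ) + 1) / (6 * y)) * ((k:ℝ) + 1)) =
      -(Real.pi * ((k:ℝ) + 1) * ((ν:ℝ) + 1) / (3 * y)) := by
    field_simp
    ring
  rw [hexp]
  show _ = Real.pi ^ 2 / (9 * y) * ((-1) ^ ((k + 1) * (ν + 1)) *
    Real.sin (Real.pi * ((k:ℝ) + 1) / 3) * (((k:ℝ) + 1) / ((ν:ℝ) + 1)) *
    Real.exp (-(Real.pi * ((k:ℝ) + 1) * ((ν:ℝ) + 1) / (3 * y))))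
  field_simp
  ring

/-- Bookkeeping of the sum over `n`. -/
lemma outer (h : ℤ → ℝ) (g : ℕ → ℝ) (c : ℝ) (hh : Summable h) (h0 : h 0 = c)
    (hp : ∀ ν : ℕ, h ((ν:ℤ) + 1) = g ν / 2) (hn : ∀ ν : ℕ, h (-((ν:ℤ) + 1)) = g ν / 2) :
    ∑' n : ℤ, h n = c + ∑' ν : ℕ, g ν := by
  have hps : Summable fun n : ℕ => h (n:ℤ) := hh.comp_injective Nat.cast_injective
  have hneg : Function.Injective (fun n : ℕ => (-((n:ℤ) + 1) : ℤ)) := by
    intro a b h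
    have h' : (-((a:ℤ) + 1) : ℤ) = -((b:ℤ) + 1) := h
    omega
  have hm : Summable fun n : ℕ => h (-((n:ℤ) + 1)) := hh.comp_injective hneg
  have e1 : ∑' n : ℤ, h n = ∑' n : ℕ, h (n:ℤ) + ∑' n : ℕ, h (-((n:ℤ) + 1)) :=
    tsum_of_nat_of_neg_add_one hps hm
  have e2 : ∑' n : ℕ, h (n:ℤ) = h ((0:ℕ):ℤ) + ∑' n : ℕ, h ((n + 1 : ℕ):ℤ) := hps.tsum_eq_zero_add
  have e3 : ∑' n : ℕ, h ((n + 1 : ℕ):ℤ) = (∑' n : ℕ, g n) / 2 := by
    rw [← tsum_div_const]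
    exact tsum_congr fun n => by rw [← hp n]; push_cast; rfl
  have e4 : ∑' n : ℕ, h (-((n:ℤ) + 1)) = (∑' n : ℕ, g n) / 2 := by
    rw [← tsum_div_const]
    exact tsum_congr hn
  rw [e1, e2, e3, e4, Nat.cast_zero, h0]
  ring

theorem thm (h1 : G_SUMA) (h2 : G_SUMT) (h3 : G_LIPM) (h4 : G_Z3) : EC237.PF.G_M0E := by
  intro y hy
  have hs := summ h1 y hy
  have hM : M0 y = ∑' n : ℤ, ∑' m : ℤ, f0 y (n, m) := hs.tsum_prod
  have ht : Summable (tM0 y) := h2.1 y hy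
  have hsw : Summable fun p : ℕ × ℕ => tM0 y p.swap := (Equiv.prodComm ℕ ℕ).summable_iff.2 ht
  have e3 : ∑' p : ℕ × ℕ, tM0 y p.swap = M0e y := (Equiv.prodComm ℕ ℕ).tsum_eq (tM0 y)
  have e4 : ∑' p : ℕ × ℕ, tM0 y p.swap = ∑' (ν : ℕ) (k : ℕ), tM0 y (k, ν) := hsw.tsum_prod
  have hout := outer (fun n => ∑' m : ℤ, f0 y (n, m)) (fun ν => ∑' k : ℕ, tM0 y (k, ν))
    (Real.sqrt 3 * Real.pi ^ 3 / 54 / y ^ 2) hs.prod (inner0 h4 y hy)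
    (fun ν => by
      have := innern h3 y hy ((ν:ℤ) + 1) ν (by omega)
      show ∑' m : ℤ, f0 y ((ν:ℤ) + 1, m) = (∑' k : ℕ, tM0 y (k, ν)) / 2
      linarith)
    (fun ν => by
      have := innern h3 y hy (-((ν:ℤ) + 1)) ν (by omega)
      show ∑' m : ℤ, f0 y (-((ν:ℤ) + 1), m) = (∑' k : ℕ, tM0 y (k, ν)) / 2
      linarith)
  exact hM.trans (hout.trans (by rw [← e3, e4]))

end EC237.PF.PkM0E
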